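import Pool.Agent.GGS.Stmt

/-!
# Generalized Golod-Shafarevich groups: subgroups of finite `W`-index with free quotients

Positive answer to Q1 of MP_d8dbbd_al: if `def_W(G) > 0` then `G` has a closed subgroup `H` of finite `W`-index which
has the free pro-`p` group of rank `2` as a continuous homomorphic image.
-/

namespace Pool.Agent.Results.MP_d8dbbd_al.FreeQuotient

open Pool.Agent.GGS

universe u

/-- The result. -/
theorem result {p : ℕ} [Fact p.Prime] {G : Type u} [Group G] [TopologicalSpace G]
    [IsTopologicalGroup G] [T2Space G] (W : G → ℝ) (h : 0 < defW p W) :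
    ∃ H : Subgroup G, IsClosed (H : Set G) ∧ wIndex p W H < ⊤ ∧
      ∃ φ : H →* FreeP p (Fin 2), Continuous φ ∧ Function.Surjective φ :=
  main' W h

end Pool.Agent.Results.MP_d8dbbd_al.FreeQuotient
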